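import Pool.Agent.H43.TriMain

set_option autoImplicit false

namespace Pool.Agent.Results.MP_295da9_pr.FatTree

open Pool.Agent.H43.Tri MeasureTheory ProbabilityTheory Measure unitInterval Function Filter

lemma blocks {W J : Type} [Fintype J] (ν : Measure Prop) [IsProbabilityMeasure ν]
    (hν : ν {False} ≠ 0) (f : ℕ × J → W) (hf : Injective f) :
    infinitePi (fun _ : W => ν) {ξ | ∀ k, ∃ x, ξ (f (k, x))} = 0 := by
  have h1 := map_infinitePi_infinitePi_of_inj (P := fun _ : W => ν) hf
  have h2 := infinitePi_map_curry (fun (_ : ℕ) (_ : J) => ν)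
  have h4 : infinitePi (fun _ : J => ν) {η | ∃ x, η x} < 1 := by
    have h5 := infinitePi_pi (fun _ : J => ν) (s := Finset.univ) (t := fun _ => {False})
      fun _ _ => .of_discrete
    rw [show {η : J → Prop | ∃ x, η x} = (Set.pi (Finset.univ : Finset J) fun _ => {False})ᶜ by
      ext; simp, prob_compl_eq_one_sub .of_discrete, h5]
    exact ENNReal.sub_lt_self (by simp) (by simp) (Finset.prod_ne_zero_iff.2 fun _ _ => hν)
  refine le_zero_iff.1 (ge_of_tendsto' (ENNReal.tendsto_pow_atTop_nhds_zero_of_lt_one h4) fun K => ?_)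
  have h3 := infinitePi_pi (fun _ : ℕ => infinitePi fun _ : J => ν) (s := Finset.range K)
    (t := fun _ => {η | ∃ x, η x}) fun _ _ => MeasurableSet.of_discrete
  rw [← h2, ← h1, Measure.map_map (MeasurableEquiv.measurable _) (by fun_prop), Measure.map_apply
    ((MeasurableEquiv.measurable _).comp (by fun_prop))
    (.pi (Finset.countable_toSet _) fun _ _ => .of_discrete)] at h3
  rw [Finset.prod_const, Finset.card_range] at h3
  rw [← h3]
  exact measure_mono fun ξ h k _ => h k

/-- A triangulation of the plane with uniform volume growth `n ^ 3` and `p_c = 1`. -/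
theorem result : ∃ (W : Type) (G : SimpleGraph W), Infinite W ∧ G.Connected ∧ IsTriang G ∧
    (∃ c C : ℝ, 0 < c ∧ c < C ∧ ∀ n : ℕ, 1 ≤ n → ∀ v,
      c * (n : ℝ) ^ 3 < {u | G.edist v u ≤ n}.ncard ∧
        ({u | G.edist v u ≤ n}.ncard : ℝ) < C * (n : ℝ) ^ 3) ∧
    ∀ p : I, p < 1 → ∀ v, setBernoulli Set.univ p
      {ω : Set W | {u | ∃ q : G.Walk v u, ∀ x ∈ q.support, x ∈ ω}.Infinite} = 0 := by
  refine ⟨V, G, inferInstance, conn, triang, ⟨_, _, by norm_num, by norm_num, growth⟩,
    fun p hp v => ?_⟩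
  rw [setBernoulli_apply']
  have h : ∀ t, ht (par^[t] v.1.1) = ht v.1.1 + t := fun t => by
    induction t with
    | zero => rfl
    | succ t ih => rw [iterate_succ_apply', ht_par, ih, add_assoc]
  refine measure_mono_null (fun ξ hξ => ?_) (blocks (J := Bool × Fin 3)
    (toNNReal p • dirac True + toNNReal (σ p) • dirac False) ?_
    (fun x => ((par^[x.1] v.1.1, x.2.1), x.2.2)) ?_)
  · intro k
    by_contra h1
    exact hξ (clus_fin (t := k) (not_exists.1 h1))
  · have h1 : toNNReal (σ p) ≠ 0 := fun h1 =>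
      (unitInterval.pos_iff_ne_zero.1 (by simpa using symm_lt_symm.2 hp)) (Subtype.ext (congrArg NNReal.toReal h1))
    simpa using h1
  · rintro ⟨k, b, l⟩ ⟨k', b', l'⟩ h1
    simp only [Prod.mk.injEq] at h1 ⊢
    have := h k
    have := h k'
    exact ⟨by rw [h1.1.1] at *; omega, h1.1.2, h1.2⟩

end Pool.Agent.Results.MP_295da9_pr.FatTree
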